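import Pool.Agent.H97.PRK.Targets

/-!
# MP_e37c09_lc: the number of the branches
-/

open Ordinal Cardinal Order Set
open scoped ZFSet

universe u

namespace Pool.Agent.H36.PRK

open _root_.HD HD.PRK

theorem PosX.mono' {μ ρ : Ordinal.{u}} {P Q : ZFSet.{u} → Prop} (h : PosX μ ρ P)
    (hPQ : ∀ x, P x → Q x) : PosX μ ρ Q := fun C hC =>
  let ⟨x, hx, hP⟩ := h C hC
  ⟨x, hx, hPQ x hP⟩

/-- A set of cardinality less than `D` (strong limit) has fewer than `D` subsets, counted through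
an injection. -/
theorem sz_of_inj {D : Cardinal.{u}} (hD : D.IsStrongLimit) {S : Set Ordinal.{u}}
    (hS : Few D.ord S) {Z : ZFSet.{u}} (f : {Y // Y ∈ Z} → Set S)
    (hf : Function.Injective f) : ∃ ν < D, NF.Sz ν Z := by
  classical
  have h1 : #S < Cardinal.lift.{u + 1} D := few_iff.1 hS
  obtain ⟨c, hc⟩ := Cardinal.mem_range_lift_of_le h1.le
  have hcD : c < D := by
    rw [← hc, Cardinal.lift_lt] at h1
    exact h1
  have h2 : (2 : Cardinal.{u}) ^ c < D := hD.two_power_lt hcD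
  refine ⟨2 ^ c, h2, ?_⟩
  have h3 : #{Y // Y ∈ Z} ≤ Cardinal.lift.{u + 1} ((2 : Cardinal.{u}) ^ c) := by
    have h4 : #{Y // Y ∈ Z} ≤ #(Set S) := Cardinal.mk_le_of_injective hf
    rw [Cardinal.mk_set, ← hc] at h4
    rw [Cardinal.lift_power, Cardinal.lift_two]
    exact h4
  have h5 : #{Y // Y ∈ Z} ≤ #(Iio ((2 : Cardinal.{u}) ^ c).ord) := by
    rw [Cardinal.mk_Iio_ordinal, Cardinal.card_ord]
    exact h3
  obtain ⟨g⟩ := (Cardinal.le_def _ _).1 h5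
  refine ⟨fun a => if h : ∃ Y : {Y // Y ∈ Z}, (g Y).1 = a then (Classical.choose h).1 else ∅,
    fun x hx => ⟨(g ⟨x, hx⟩).1, (g ⟨x, hx⟩).2, ?_⟩⟩
  have hex : ∃ Y : {Y // Y ∈ Z}, (g Y).1 = (g ⟨x, hx⟩).1 := ⟨⟨x, hx⟩, rfl⟩
  simp only [hex, dif_pos]
  have h6 := g.injective (Subtype.ext (Classical.choose_spec hex))
  rw [h6]

/-- L3B. The number of the branches. -/
theorem pf_L3B : T_L3B.{u} := by
  classical
  intro D K hD _ μ F hF m hm hlim Z hZ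
  refine sz_of_inj hD hF (fun Y => {s | s.1.toZFSet ∈ Y.1}) ?_
  intro Y1 Y2 h12
  by_contra hne
  have hne' : Y1.1 ≠ Y2.1 := fun h => hne (Subtype.ext h)
  obtain ⟨hs1, hp1⟩ := hZ Y1.1 Y1.2
  obtain ⟨hs2, hp2⟩ := hZ Y2.1 Y2.2
  have hex : ∃ i : Ordinal.{u}, i < m ∧ ¬ (i.toZFSet ∈ Y1.1 ↔ i.toZFSet ∈ Y2.1) := by
    by_contra hcon
    push Not at hcon
    apply hne'
    ext z
    constructor
    · intro hz
      obtain ⟨a, ha, rfl⟩ := mem_toZFSet_iff.1 (hs1 hz)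
      exact (hcon a ha).1 hz
    · intro hz
      obtain ⟨a, ha, rfl⟩ := mem_toZFSet_iff.1 (hs2 hz)
      exact (hcon a ha).2 hz
  obtain ⟨i, ⟨him, hi⟩, hmin⟩ := WellFounded.has_min (wellFounded_lt (α := Ordinal.{u}))
    {i | i < m ∧ ¬ (i.toZFSet ∈ Y1.1 ↔ i.toZFSet ∈ Y2.1)} hex
  have hbelow : ∀ a < i, (a.toZFSet ∈ Y1.1 ↔ a.toZFSet ∈ Y2.1) := by
    intro a ha
    by_contra hcon
    exact hmin a ⟨ha.trans him, hcon⟩ ha
  have hsm : succ i < m := hlim.succ_lt him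
  have hq1 := hp1 (succ i) hsm
  have hq2 := hp2 (succ i) hsm
  have hspl : Spl μ K.ord F i := by
    by_cases hi1 : i.toZFSet ∈ Y1.1
    · have hi2 : i.toZFSet ∉ Y2.1 := fun h => hi ⟨fun _ => h, fun _ => hi1⟩
      refine ⟨{a | a.toZFSet ∈ Y1.1}, PosX.mono' hq1 fun x hx => ?_,
        PosX.mono' hq2 fun x hx => ?_⟩
      · exact ⟨fun a ha => hx a (ha.trans (lt_succ i)), (hx i (lt_succ i)).2 hi1⟩
      · refine ⟨fun a ha => ?_, fun h => hi2 ((hx i (lt_succ i)).1 h)⟩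
        rw [hx a (ha.trans (lt_succ i))]
        exact (hbelow a ha).symm
    · have hi2 : i.toZFSet ∈ Y2.1 := by
        by_contra h
        exact hi ⟨fun h' => absurd h' hi1, fun h' => absurd h' h⟩
      refine ⟨{a | a.toZFSet ∈ Y1.1}, PosX.mono' hq2 fun x hx => ?_,
        PosX.mono' hq1 fun x hx => ?_⟩
      · refine ⟨fun a ha => ?_, (hx i (lt_succ i)).2 hi2⟩
        rw [hx a (ha.trans (lt_succ i))]
        exact (hbelow a ha).symm
      · exact ⟨fun a ha => hx a (ha.trans (lt_succ i)),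
          fun h => hi1 ((hx i (lt_succ i)).1 h)⟩
  have hiS : i ∈ SpS μ K.ord F := ⟨him.trans hm, hspl⟩
  have h7 : (⟨i, hiS⟩ : SpS μ K.ord F) ∈ {s : SpS μ K.ord F | s.1.toZFSet ∈ Y1.1} ↔
      (⟨i, hiS⟩ : SpS μ K.ord F) ∈ {s : SpS μ K.ord F | s.1.toZFSet ∈ Y2.1} := by
    have : {s : SpS μ K.ord F | s.1.toZFSet ∈ Y1.1} = {s : SpS μ K.ord F | s.1.toZFSet ∈ Y2.1} :=
      h12
    rw [this]
  exact hi h7

end Pool.Agent.H36.PRK
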